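import Pool.Agent.K3h75.ND.Stm

/-! # Hypersurfaces with nodal reductions: local modules at nodal primes

Adapted from `H945R2/E/BADE.lean` and `TH214/RM/Glob.lean` (starting library). -/

set_option autoImplicit false

open scoped Pointwise

namespace Pool.Agent.K3h3.ND

open MvPolynomial Pool.Agent.H918R2.Quad Pool.Agent.H945R2.E Pool.Agent.TH214.RM
open Pool.Agent.K3h75.ND

section aux

variable {R F ι : Type} [CommRing R] [Field F] [Algebra R F]

/-- The values of the forms of degree `m`. -/
theorem aeval_mem (x : ι → F) (P : MvPolynomial ι R) (m : ℕ) (hP : P.IsHomogeneous m) :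
    aeval x P ∈ Submodule.span R (Set.range x) ^ m := by
  rw [aeval_def, eval₂_eq]
  refine Submodule.sum_mem _ fun s hs => ?_
  rw [← Algebra.smul_def]
  refine Submodule.smul_mem _ _ ?_
  have h1 : s.degree = m := by
    by_contra hne
    exact (mem_support_iff.1 hs) (hP.coeff_eq_zero hne)
  have h2 := SetLike.prod_pow_mem_graded (fun i : ℕ => Submodule.span R (Set.range x) ^ i)
    (F := s.support) (n := fun i => s i) (i := fun _ => 1) (g := x) (fun i _ => by
      rw [pow_one]; exact Submodule.subset_span ⟨i, rfl⟩)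
  have h3 : ∑ i ∈ s.support, s i • 1 = m := by
    rw [← h1, Finsupp.degree]
    simp
  rw [h3] at h2
  exact h2

/-- The product of the generating sets is in the span of the monomials. -/
theorem prod_mem (π : R) (x : ι → F) (H : MvPolynomial ι R) (d e r : ℕ)
    (hH : H.IsHomogeneous d) (D : ℕ) (hD : D = e + r * (d - 1)) :
    ∀ y ∈ ∏ k, Psi π x H d e r k, y ∈ Submodule.span R (Set.range x ^ D) := by
  intro y hy
  obtain ⟨g, hg, rfl⟩ := (Set.mem_fintype_prod _ _).1 hy
  rw [← Submodule.span_pow]
  have h1 : ∀ k ∈ (Finset.univ : Finset (Option (Fin r))), g k ∈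
      (fun i : ℕ => Submodule.span R (Set.range x) ^ i)
        (Option.elim k e fun _ => d - 1) := by
    intro k _
    cases k with
    | none =>
      change g none ∈ Submodule.span R (Set.range x) ^ e
      rw [Submodule.span_pow]
      exact Submodule.subset_span (hg none)
    | some j =>
      change g (some j) ∈ Submodule.span R (Set.range x) ^ (d - 1)
      rcases hg (some j) with ⟨i, hi⟩ | ⟨z, hz, hi⟩
      · rw [← hi]
        exact aeval_mem x _ _ hH.pderiv
      · rw [hi, ← Algebra.smul_def, Submodule.span_pow]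
        exact Submodule.smul_mem _ _ (Submodule.subset_span hz)
  have h2 := SetLike.prod_mem_graded (fun i : ℕ => Submodule.span R (Set.range x) ^ i) _ _ h1
  rw [Fintype.sum_option] at h2
  simp only [Option.elim, Finset.sum_const, Finset.card_univ, Fintype.card_fin, smul_eq_mul] at h2
  rw [hD]
  exact h2

/-- A power of `π` times a monomial is in the product of the generating sets. -/
theorem pow_mem (π : R) (x : ι → F) (H : MvPolynomial ι R) (d e r : ℕ)
    (D : ℕ) (hD : D = e + r * (d - 1)) (y : F) (hy : y ∈ Set.range x ^ D) :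
    algebraMap R F π ^ (∑ j : Fin r, (j.val + 1)) * y ∈ ∏ k, Psi π x H d e r k := by
  rw [hD, pow_add, mul_comm r, pow_mul] at hy
  obtain ⟨y0, hy0, z, hz, rfl⟩ := hy
  have e1 : (Set.range x ^ (d - 1)) ^ r = ∏ _j : Fin r, Set.range x ^ (d - 1) := by
    rw [Finset.prod_const, Finset.card_univ, Fintype.card_fin]
  rw [e1] at hz
  obtain ⟨g, hg, rfl⟩ := (Set.mem_fintype_prod _ _).1 hz
  refine (Set.mem_fintype_prod _ _).2 ⟨fun k => Option.elim k y0
    fun j => algebraMap R F (π ^ (j.val + 1)) * g j, ?_, ?_⟩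
  · intro k
    cases k with
    | none => exact hy0
    | some j => exact Or.inr ⟨g j, hg j, rfl⟩
  · rw [Fintype.prod_option]
    simp only [Option.elim]
    rw [Finset.prod_mul_distrib, ← Finset.prod_pow_eq_pow_sum]
    simp only [map_pow]
    ring

end aux

theorem hess_map {R S σ : Type} [CommRing R] [CommRing S] [Fintype σ] [DecidableEq σ] (φ : R →+* S)
    (f : MvPolynomial σ R) : map φ (hess f).det = (hess (map φ f)).det := by
  rw [RingHom.map_det]
  congr 1
  ext i j : 2
  simp [hess, pderiv_map]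

theorem t_LMN : S_CORE → S_LMN := by
  intro hC O R K F _ _ _ _ _ _ _ _ _ _ _ _ _ 𝔭 _ _ _ _ n H d hd hH hH0 hNod c hc hX x hx0 hrel
    hgen b htb
  have hinjOR : Function.Injective (algebraMap O R) :=
    IsLocalization.injective R 𝔭.primeCompl_le_nonZeroDivisors
  have hinj : Function.Injective (algebraMap R K) := IsFractionRing.injective R K
  have hOF : ∀ r : O, algebraMap O F r = algebraMap R F (algebraMap O R r) :=
    fun r => IsScalarTower.algebraMap_apply O R F r
  obtain ⟨π, hπ⟩ := IsDiscreteValuationRing.exists_irreducible R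
  have hc0 : algebraMap O R c ≠ 0 := fun h => hc (hinjOR (by rw [h, map_zero]))
  obtain ⟨r, u, hu⟩ := IsDiscreteValuationRing.eq_unit_mul_pow_irreducible hc0 hπ
  obtain ⟨H', hH'⟩ : ∃ H' : MvPolynomial (Fin (n + 2)) R, H' = map (algebraMap O R) H := ⟨_, rfl⟩
  have hH'd : H'.IsHomogeneous d := by rw [hH']; exact hH.map _
  have hH'0 : H' ≠ 0 := fun h => hH0 (map_injective _ hinjOR (by rw [← hH', h, map_zero]))
  have hrel' : aeval x H' = 0 := by rw [hH', aeval_map_algebraMap, hrel]
  have hspan : ∀ i : Fin (n + 2), ∃ m : ℕ,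
      (C (π ^ r) * X i ^ m : MvPolynomial (Fin (n + 2)) R) ∈
        (Ideal.span (Set.range fun j => pderiv j H') : Ideal (MvPolynomial (Fin (n + 2)) R)) := by
    intro i
    obtain ⟨m, hm⟩ := hX i
    refine ⟨m, ?_⟩
    have h1 := Ideal.mem_map_of_mem (map (algebraMap O R)) hm
    rw [Ideal.map_span, ← Set.range_comp] at h1
    have h2 : ((map (algebraMap O R)) ∘ fun j => pderiv j H) = fun j => pderiv j H' := by
      funext j
      rw [hH', pderiv_map]
      rfl
    rw [h2] at h1
    have h3 : (C (π ^ r) * X i ^ m : MvPolynomial (Fin (n + 2)) R) =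
        C ((u⁻¹ : Rˣ) : R) * map (algebraMap O R) (C c * X i ^ m) := by
      rw [map_mul, map_C, map_pow (map (algebraMap O R)), map_X, ← mul_assoc, ← C_mul, hu,
        ← mul_assoc, Units.inv_mul, one_mul]
    rw [h3]
    exact Ideal.mul_mem_left _ _ h1
  have hNod' : ∀ (s : Fin (n + 2)) (Q : Ideal (MvPolynomial {j // j ≠ s} R)), Q.IsPrime →
      deh s H' ∈ Q → (∀ r : R, C r ∈ Q ↔ ¬ IsUnit r) → (∃ j, pderiv j (deh s H') ∉ Q) ∨
        (hess (deh s H')).det ∉ Q := by
    intro s Q hQ h1 h2
    have e1 : deh s H' = map (algebraMap O R) (deh s H) := by rw [hH', map_deh]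
    have h3 := hNod s (Q.comap (map (algebraMap O R))) (Ideal.IsPrime.comap _) (fun o => by
        rw [Ideal.mem_comap, map_C, h2, IsLocalization.AtPrime.isUnit_to_map_iff R 𝔭 o]
        simp [Ideal.primeCompl]) (by rw [Ideal.mem_comap, ← e1]; exact h1)
    rcases h3 with ⟨j, hj⟩ | h3
    · refine Or.inl ⟨j, fun h => hj ?_⟩
      rw [Ideal.mem_comap, ← pderiv_map, ← e1]
      exact h
    · refine Or.inr fun h => h3 ?_
      rw [Ideal.mem_comap, hess_map, ← e1]
      exact h
  have hind : ∀ s, x s ≠ 0 → ∃ j₀ : {i : Fin (n + 2) // i ≠ s},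
      AlgebraicIndependent R
        (fun i : {i : {i : Fin (n + 2) // i ≠ s} // i ≠ j₀} => x i / x s) := by
    intro s hs
    obtain ⟨j₀, hj₀⟩ := hind_of (K := K) (ι := Fin (n + 2)) (by simp) x hx0 hgen b htb x
      (fun i j => if i = j then 1 else 0) (by
        intro i
        rw [Finset.sum_eq_single i]
        · rw [if_pos rfl, map_one, one_mul]
        · intro j _ hj
          rw [if_neg (Ne.symm hj), map_zero, zero_mul]
        · intro h
          exact absurd (Finset.mem_univ _) h) s hs
    exact ⟨j₀, hj₀.restrictScalars hinj⟩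
  refine ⟨r * (d - 1) + 1, fun D hDD => ?_⟩
  obtain ⟨e, he⟩ : ∃ e, e = D - r * (d - 1) := ⟨_, rfl⟩
  have he1 : 1 ≤ e := by omega
  have hD : D = e + r * (d - 1) := by omega
  have hle : ∀ y ∈ Submodule.span R (∏ k, Psi π x H' d e r k),
      y ∈ Submodule.span R (Set.range x ^ D) := by
    intro y hy
    have h1 : Submodule.span R (∏ k, Psi π x H' d e r k) ≤ Submodule.span R (Set.range x ^ D) := by
      rw [Submodule.span_le]
      exact fun h hh => prod_mem π x H' d e r hH'd D hD h hh
    exact h1 hy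
  obtain ⟨k, hk⟩ : ∃ k, k = ∑ j : Fin r, (j.val + 1) := ⟨_, rfl⟩
  have hpk : ∀ y ∈ Submodule.span R (Set.range x ^ D),
      algebraMap R F π ^ k * y ∈ Submodule.span R (∏ k, Psi π x H' d e r k) := by
    intro y hy
    induction hy using Submodule.span_induction with
    | mem y hy => rw [hk]; exact Submodule.subset_span (pow_mem π x H' d e r D hD y hy)
    | zero => rw [mul_zero]; exact Submodule.zero_mem _
    | add a b _ _ ha hb => rw [mul_add]; exact Submodule.add_mem _ ha hb
    | smul r a _ ha =>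
      rw [mul_smul_comm]
      exact Submodule.smul_mem _ _ ha
  refine ⟨(Submodule.span R (∏ k, Psi π x H' d e r k)).restrictScalars O, ?_, ⟨k, ?_⟩, ?_⟩
  · intro y hy
    exact clear_denom (R := R) 𝔭 (Set.range x ^ D) y (hle y hy)
  · have hmap : 𝔭.map (algebraMap O R) ≤ Ideal.span {π} := by
      rw [Ideal.map_le_iff_le_comap, ← hπ.maximalIdeal_eq]
      intro c hc
      rw [Ideal.mem_comap]
      exact (IsLocalization.AtPrime.to_map_mem_maximal_iff R 𝔭 c).2 hc
    intro c hc y hy
    have hc1 : ∃ r : R, algebraMap O R c = π ^ k * r := by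
      have h1 : algebraMap O R c ∈ Ideal.span {π ^ k} := by
        rw [← Ideal.span_singleton_pow]
        apply Ideal.pow_right_mono hmap
        rw [← Ideal.map_pow]
        exact Ideal.mem_map_of_mem _ hc
      obtain ⟨r, hr⟩ := Ideal.mem_span_singleton.1 h1
      exact ⟨r, hr⟩
    obtain ⟨r', hr'⟩ := hc1
    show c • y ∈ Submodule.span R (∏ k, Psi π x H' d e r k)
    have hy' : y ∈ Submodule.span R (Set.range x ^ D) := Submodule.span_subset_span O R _ hy
    have h2 : c • y = r' • (algebraMap R F π ^ k * y) := by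
      rw [Algebra.smul_def, Algebra.smul_def, hOF, hr', map_mul, map_pow]
      ring
    rw [h2]
    exact Submodule.smul_mem _ _ (hpk y hy')
  · intro M hMP hM2 f hfM hf q hqp hq
    obtain ⟨𝒪, hloc, hR, hRU, hloc2, hG, hreg⟩ := transfer (R := R) 𝔭 M
      (∏ k, Psi π x H' d e r k) (fun y hy => hMP hy) (fun y hy => hM2 y hy) f q hq
    apply hreg
    exact hC R F n 𝒪 hloc hR hRU π hπ H' d hd hH'd hH'0 hNod' r hspan x hrel' hind e he1 f hf
      (hMP hfM) hG hloc2

end Pool.Agent.K3h3.ND
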